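import Pool.Agent.Lib.MP_610fe3_an.AC.Statement
import Pool.Agent.Lib.MP_610fe3_an.AP.Statement
import Pool.Agent.Lib.MP_610fe3_an.T6.Statement

/-!
# The conformality defect of an attractor of an Anosov diffeomorphism: definitions
-/

open Set Filter Function Bundle
open scoped Manifold ContDiff Topology

namespace Pool.Agent.Lib.MP610fe3.CD

open AP (Att Rep Rate)

section Defs

variable {V : Type*} [NormedAddCommGroup V] [NormedSpace ℝ V]
  {M : Type*} [TopologicalSpace M] [ChartedSpace V M]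
  [RiemannianBundle (fun x : M => TangentSpace 𝓘(ℝ, V) x)]

/-- The exponential defect of conformality of the derivatives of the iterates of `g` on `F`, over
`X`, is at most `κ`, uniformly. -/
def UniDefect (g : M → M) (F : ∀ x : M, Submodule ℝ (TangentSpace 𝓘(ℝ, V) x)) (κ : ℝ)
    (X : Set M) : Prop :=
  ∀ ε : ℝ, 0 < ε → ∃ C : ℝ, ∀ (n : ℕ), ∀ x ∈ X, ∀ v ∈ F x, ∀ w ∈ F x,
    ‖mfderiv 𝓘(ℝ, V) 𝓘(ℝ, V) (g^[n]) x v‖ * ‖w‖ ≤
      C * Real.exp ((κ + ε) * n) * ‖mfderiv 𝓘(ℝ, V) 𝓘(ℝ, V) (g^[n]) x w‖ * ‖v‖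

/-- The defect of conformality at the periodic points in `X` is at most `κ` (any two Lyapunov
exponents on `F x`, `x` periodic in `X`, differ by at most `κ`): here the constant may depend on
the periodic point. -/
def PerDefect (g : M → M) (F : ∀ x : M, Submodule ℝ (TangentSpace 𝓘(ℝ, V) x)) (κ : ℝ)
    (X : Set M) : Prop :=
  ∀ p ∈ X, p ∈ periodicPts g → AC.DefectAt g F κ p

/-- The defect of conformality of `f` on `F` over `X` is at most `κ`: uniformly, or `f` is a `C^2`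
diffeomorphism and this is so at the periodic points in `X`. -/
def Defect (f : M ≃ₘ^1⟮𝓘(ℝ, V), 𝓘(ℝ, V)⟯ M)
    (F : ∀ x : M, Submodule ℝ (TangentSpace 𝓘(ℝ, V) x)) (κ : ℝ) (X : Set M) : Prop :=
  UniDefect f F κ X ∨ (ContMDiff 𝓘(ℝ, V) 𝓘(ℝ, V) 2 f ∧ ContMDiff 𝓘(ℝ, V) 𝓘(ℝ, V) 2 f.symm ∧
    PerDefect f F κ X)

/-- Bounds over the union `A ∪ R` of the attractor and the repeller of `U`: the stable rates are
between `s` and `b`, the unstable rates are at least `a`. -/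
structure Bounds (f : M ≃ₘ^1⟮𝓘(ℝ, V), 𝓘(ℝ, V)⟯ M)
    (Es Eu : ∀ x : M, Submodule ℝ (TangentSpace 𝓘(ℝ, V) x)) (U : Set M) (s b a : ℝ) : Prop where
  s_low : Rate f f Es (-s) (Att f U ∪ Rep f U)
  s_up : Rate f f.symm Es b (Att f U ∪ Rep f U)
  u_low : Rate f f.symm Eu (-a) (Att f U ∪ Rep f U)

/-- The two lower bounds for the defect of conformality `κ` of `Eu`, for a proper attracting
region `U` with attractor `A` and repeller `R`: over `A ∪ R`, `a s ≤ P κ (b - s)`; over `A` only,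
`a² s ≤ P κ ((b - s) B - a s)`, where `B` is an upper bound for the unstable rates. -/
def NonConf (P : ℕ → ℝ) (f : M ≃ₘ^1⟮𝓘(ℝ, V), 𝓘(ℝ, V)⟯ M)
    (Es Eu : ∀ x : M, Submodule ℝ (TangentSpace 𝓘(ℝ, V) x)) (U : Set M) : Prop :=
  ∀ (d : ℕ), (∀ x, Module.finrank ℝ (Eu x) = d) → ∀ s b a κ : ℝ, 0 < s → s ≤ b → 0 < a → 0 ≤ κ →
    Bounds f Es Eu U s b a →
    (Defect f Eu κ (Att f U ∪ Rep f U) → a * s ≤ P d * κ * (b - s)) ∧
    (∀ B : ℝ, a ≤ B → Rate f f Eu B (Att f U ∪ Rep f U) → Defect f Eu κ (Att f U) →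
      a ^ 2 * s ≤ P d * κ * ((b - s) * B - a * s))

end Defs

universe u v

/-- The `C^1` theorem of T7, with the number `P d` in the place of `d²`; a transitive `f` has no
proper attracting region. -/
def SpecMain7P (P : ℕ → ℝ) : Prop :=
  ∀ {V : Type u} [NormedAddCommGroup V] [NormedSpace ℝ V] [FiniteDimensional ℝ V]
    {M : Type v} [TopologicalSpace M] [CompactSpace M] [T2Space M] [ConnectedSpace M]
    [ChartedSpace V M] [IsManifold 𝓘(ℝ, V) ∞ M]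
    [RiemannianBundle (fun x : M => TangentSpace 𝓘(ℝ, V) x)]
    [IsContinuousRiemannianBundle V (fun x : M => TangentSpace 𝓘(ℝ, V) x)]
    (f : M ≃ₘ^1⟮𝓘(ℝ, V), 𝓘(ℝ, V)⟯ M)
    (Es Eu : ∀ x : M, Submodule ℝ (TangentSpace 𝓘(ℝ, V) x)), Gen.IsAnosovSplitting f Es Eu →
    ∀ (d : ℕ) (C s b a κ : ℝ), 1 ≤ d → (∀ x, Module.finrank ℝ (Eu x) = d) →
    0 < s → s ≤ b → 0 < a → 0 ≤ κ → T6.Rates f Es Eu C s b a κ → P d * κ * (b - s) < a * s →
    TopTransitive f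

/-- Module CD: the final theorem, from the two `C^1` theorems `SpecMain7P P` and `AC.SpecMfd2 P`. -/
def SpecCD (P : ℕ → ℝ) : Prop :=
  ∀ {V : Type u} [NormedAddCommGroup V] [NormedSpace ℝ V] [FiniteDimensional ℝ V]
    {M : Type v} [TopologicalSpace M] [CompactSpace M] [T2Space M] [ConnectedSpace M]
    [ChartedSpace V M] [IsManifold 𝓘(ℝ, V) ∞ M]
    [RiemannianBundle (fun x : M => TangentSpace 𝓘(ℝ, V) x)]
    [IsContinuousRiemannianBundle V (fun x : M => TangentSpace 𝓘(ℝ, V) x)]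
    (f : M ≃ₘ^1⟮𝓘(ℝ, V), 𝓘(ℝ, V)⟯ M)
    (Es Eu : ∀ x : M, Submodule ℝ (TangentSpace 𝓘(ℝ, V) x)), Gen.IsAnosovSplitting f Es Eu →
    ∀ U : Set M, AC.ProperAttracting f U → NonConf P f Es Eu U

end Pool.Agent.Lib.MP610fe3.CD
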