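import Pool.Agent.Lib.MP_610fe3_an.AC.FinalOf
import Pool.Agent.Lib.MP_610fe3_an.CD.Statement

/-!
# The conformality defect of an attractor: consequences of `SpecCD`
-/

open Set Filter Function Bundle
open scoped Manifold ContDiff Topology

namespace Pool.Agent.Lib.MP610fe3.CD

open Cf
open AP (Att Rep Rate UniRate PerRate)

universe u v

/-- The number in the inequalities. -/
noncomputable def P (d : ℕ) : ℝ := 4 * ((d - 1 : ℕ) : ℝ) / d

theorem P_nonneg (d : ℕ) : 0 ≤ P d := by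
  unfold P
  positivity

theorem P_eq {d : ℕ} (hd : 1 ≤ d) : P d = 4 * (1 - 1 / (d : ℝ)) := by
  unfold P
  have h : (0 : ℝ) < d := by exact_mod_cast hd
  rw [Nat.cast_sub hd, Nat.cast_one]
  field_simp

section Mono

variable {V : Type*} [NormedAddCommGroup V] [NormedSpace ℝ V]
  {M : Type*} [TopologicalSpace M] [ChartedSpace V M]
  [RiemannianBundle (fun x : M => TangentSpace 𝓘(ℝ, V) x)]

theorem rate_mono {f : M ≃ₘ^1⟮𝓘(ℝ, V), 𝓘(ℝ, V)⟯ M} {g : M → M}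
    {F : ∀ x : M, Submodule ℝ (TangentSpace 𝓘(ℝ, V) x)} {c : ℝ} {X Y : Set M} (hXY : X ⊆ Y)
    (h : Rate f g F c Y) : Rate f g F c X := by
  rcases h with h | ⟨h1, h2, h3⟩
  · refine Or.inl fun ε hε => ?_
    obtain ⟨C, hC⟩ := h ε hε
    exact ⟨C, fun n x hx => hC n x (hXY hx)⟩
  · exact Or.inr ⟨h1, h2, fun p hp => h3 p (hXY hp)⟩

theorem defect_mono {f : M ≃ₘ^1⟮𝓘(ℝ, V), 𝓘(ℝ, V)⟯ M}
    {F : ∀ x : M, Submodule ℝ (TangentSpace 𝓘(ℝ, V) x)} {c : ℝ} {X Y : Set M} (hXY : X ⊆ Y)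
    (h : Defect f F c Y) : Defect f F c X := by
  rcases h with h | ⟨h1, h2, h3⟩
  · refine Or.inl fun ε hε => ?_
    obtain ⟨C, hC⟩ := h ε hε
    exact ⟨C, fun n x hx => hC n x (hXY hx)⟩
  · exact Or.inr ⟨h1, h2, fun p hp => h3 p (hXY hp)⟩

end Mono

variable {V : Type u} [NormedAddCommGroup V] [NormedSpace ℝ V] [FiniteDimensional ℝ V]
  {M : Type v} [TopologicalSpace M] [CompactSpace M] [T2Space M] [ConnectedSpace M]
  [ChartedSpace V M] [IsManifold 𝓘(ℝ, V) ∞ M]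
  [RiemannianBundle (fun x : M => TangentSpace 𝓘(ℝ, V) x)]
  [IsContinuousRiemannianBundle V (fun x : M => TangentSpace 𝓘(ℝ, V) x)]

/-- The theorem with the explicit number. -/
theorem main_of (hCD : SpecCD.{u, v} P) (f : M ≃ₘ^1⟮𝓘(ℝ, V), 𝓘(ℝ, V)⟯ M)
    (Es Eu : ∀ x : M, Submodule ℝ (TangentSpace 𝓘(ℝ, V) x)) (hA : Gen.IsAnosovSplitting f Es Eu)
    (d : ℕ) (hd : ∀ x, Module.finrank ℝ (Eu x) = d) :
    (∀ U : Set M, AC.ProperAttracting f U → ∀ s b a κ : ℝ, 0 < s → s ≤ b → 0 < a → 0 ≤ κ →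
      Bounds f Es Eu U s b a →
      (Defect f Eu κ (Att f U ∪ Rep f U) → a * s ≤ 4 * (1 - 1 / d) * κ * (b - s)) ∧
      (∀ B : ℝ, a ≤ B → Rate f f Eu B (Att f U ∪ Rep f U) → Defect f Eu κ (Att f U) →
        a ^ 2 * s ≤ 4 * (1 - 1 / d) * κ * ((b - s) * B - a * s))) ∧
    (¬ TopTransitive f → ∃ U : Set M, AC.ProperAttracting f U) := by
  refine ⟨fun U hU s b a κ hs hsb ha hκ hB => ?_, fun h => ?_⟩
  · rcases Nat.eq_zero_or_pos d with h0 | hd0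
    · exact absurd (Holo.trans_of_zero f Es Eu hA fun x => (hd x).trans h0)
        (AC.MfdM.not_transitive f.surjective hU)
    · have h1 := hCD f Es Eu hA U hU d hd s b a κ hs hsb ha hκ hB
      rwa [P_eq hd0] at h1
  · rcases AC.exists_attracting f Es Eu hA with h1 | h1
    · exact absurd h1 h
    · exact h1

/-- The criterion with bounds on the whole manifold. -/
theorem transitive_of (hCD : SpecCD.{u, v} P) (f : M ≃ₘ^1⟮𝓘(ℝ, V), 𝓘(ℝ, V)⟯ M)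
    (Es Eu : ∀ x : M, Submodule ℝ (TangentSpace 𝓘(ℝ, V) x)) (hA : Gen.IsAnosovSplitting f Es Eu)
    (d : ℕ) (hd : ∀ x, Module.finrank ℝ (Eu x) = d) (s b a κ : ℝ) (hs : 0 < s) (hsb : s ≤ b)
    (ha : 0 < a) (hκ : 0 ≤ κ) (h1 : Rate f f Es (-s) univ) (h2 : Rate f f.symm Es b univ)
    (h3 : Rate f f.symm Eu (-a) univ) (h4 : Defect f Eu κ univ)
    (h : 4 * (1 - 1 / d) * κ * (b - s) < a * s) : TopTransitive f := by
  by_contra hf
  obtain ⟨m1, m2⟩ := main_of hCD f Es Eu hA d hd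
  obtain ⟨U, hU⟩ := m2 hf
  have m3 := (m1 U hU s b a κ hs hsb ha hκ ⟨rate_mono (subset_univ _) h1,
    rate_mono (subset_univ _) h2, rate_mono (subset_univ _) h3⟩).1
    (defect_mono (subset_univ _) h4)
  linarith

/-- One side of the conformal case. -/
theorem exists_defect (hCD : SpecCD.{u, v} P) (f : M ≃ₘ^1⟮𝓘(ℝ, V), 𝓘(ℝ, V)⟯ M)
    (hf : ContMDiff 𝓘(ℝ, V) 𝓘(ℝ, V) 2 f) (hf' : ContMDiff 𝓘(ℝ, V) 𝓘(ℝ, V) 2 f.symm)
    (Es Eu : ∀ x : M, Submodule ℝ (TangentSpace 𝓘(ℝ, V) x)) (hA : Gen.IsAnosovSplitting f Es Eu)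
    {U : Set M} (hU : AC.ProperAttracting f U) :
    ∃ p ∈ periodicPts f, p ∈ U ∧ ¬ AC.DefectAt f Eu 0 p := by
  by_contra hnot
  push Not at hnot
  obtain ⟨s, b, a, B, hs, hsb, ha, haB, hP⟩ := AC.exists_perBounds f Es Eu hA
  have hps : periodicPts f.symm = periodicPts f := AC.periodicPts_symm f.toHomeomorph.toEquiv
  have hAU : Att f U ⊆ U := fun x hx => hx 0
  obtain ⟨x⟩ : Nonempty M := inferInstance
  obtain ⟨N, e, he, hemb, hinj⟩ := exists_embedding_euclidean_of_compact (I := 𝓘(ℝ, V)) (M := M)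
  obtain ⟨d, hd⟩ : ∃ d : ℕ, ∀ x, Module.finrank ℝ (Eu x) = d := by
    let : MetricSpace M := hemb.isEmbedding.comapMetricSpace e
    exact Cf.exists_dim e hemb.isEmbedding.to_isometry he hinj f.symm Eu Es
      (IsAnosovSplitting.symm hA)
  have h1 := ((main_of hCD f Es Eu hA d hd).1 U hU s b a 0 hs hsb ha le_rfl
    ⟨Or.inr ⟨hf, hf', fun p _ hp => (hP p hp).1⟩,
      Or.inr ⟨hf, hf', fun p _ hp => (hP p (hps ▸ hp)).2.1⟩,
      Or.inr ⟨hf, hf', fun p _ hp => (hP p (hps ▸ hp)).2.2.1⟩⟩).2 B haB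
    (Or.inr ⟨hf, hf', fun p _ hp => (hP p hp).2.2.2⟩)
    (Or.inr ⟨hf, hf', fun p hp hp' => hnot p hp' (hAU hp)⟩)
  have h2 : 0 < a ^ 2 * s := by positivity
  simp only [mul_zero, zero_mul] at h1
  linarith

/-- Every attractor contains a periodic point with two different unstable exponents, every
repeller one with two different stable exponents. -/
theorem two_exponents_of (hCD : SpecCD.{u, v} P) (f : M ≃ₘ^1⟮𝓘(ℝ, V), 𝓘(ℝ, V)⟯ M)
    (hf : ContMDiff 𝓘(ℝ, V) 𝓘(ℝ, V) 2 f) (hf' : ContMDiff 𝓘(ℝ, V) 𝓘(ℝ, V) 2 f.symm)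
    (Es Eu : ∀ x : M, Submodule ℝ (TangentSpace 𝓘(ℝ, V) x)) (hA : Gen.IsAnosovSplitting f Es Eu)
    {U : Set M} (hU : AC.ProperAttracting f U) :
    (∃ p ∈ periodicPts f, p ∈ U ∧ ¬ AC.DefectAt f Eu 0 p) ∧
      ∃ p ∈ periodicPts f, p ∉ U ∧ ¬ AC.DefectAt f.symm Es 0 p := by
  refine ⟨exists_defect hCD f hf hf' Es Eu hA hU, ?_⟩
  obtain ⟨p, hp, hpU, h⟩ := exists_defect hCD f.symm hf' hf Eu Es (IsAnosovSplitting.symm hA)
    (AC.ProperAttracting.dual (f := f.toHomeomorph) hU)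
  refine ⟨p, ?_, fun h1 => hpU (subset_closure h1), h⟩
  have h1 : periodicPts f.symm = periodicPts f := AC.periodicPts_symm f.toHomeomorph.toEquiv
  exact h1 ▸ hp

/-- If `f` is a `C^2` diffeomorphism, with only one unstable exponent at each periodic point, or
only one stable exponent at each periodic point, then `f` is topologically transitive. -/
theorem conformal_of (hCD : SpecCD.{u, v} P) (f : M ≃ₘ^1⟮𝓘(ℝ, V), 𝓘(ℝ, V)⟯ M)
    (hf : ContMDiff 𝓘(ℝ, V) 𝓘(ℝ, V) 2 f) (hf' : ContMDiff 𝓘(ℝ, V) 𝓘(ℝ, V) 2 f.symm)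
    (Es Eu : ∀ x : M, Submodule ℝ (TangentSpace 𝓘(ℝ, V) x)) (hA : Gen.IsAnosovSplitting f Es Eu)
    (h : (∀ p ∈ periodicPts f, AC.DefectAt f Eu 0 p) ∨
      ∀ p ∈ periodicPts f, AC.DefectAt f.symm Es 0 p) : TopTransitive f := by
  by_contra hnt
  rcases AC.exists_attracting f Es Eu hA with h1 | ⟨U, hU⟩
  · exact hnt h1
  · obtain ⟨⟨p, hp, -, h1⟩, q, hq, -, h2⟩ := two_exponents_of hCD f hf hf' Es Eu hA hU
    rcases h with h | h
    · exact h1 (h p hp)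
    · exact h2 (h q hq)

end Pool.Agent.Lib.MP610fe3.CD
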