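import Pool.Agent.Lib.MP_610fe3_an.CD.Spec
import Pool.Agent.Lib.MP_610fe3_an.CD.FinalOf
import Pool.Agent.Lib.MP_610fe3_an.AC.Statement2

/-!
# Module CD: the assembly
-/

open Set Filter Function Bundle
open scoped Manifold ContDiff Topology

namespace Pool.Agent.Lib.MP610fe3.CD

open AP (Att Rep Rate UniRate)

universe u v

/-- Module CD. -/
theorem specCD_of {P : ℕ → ℝ} (hMain : SpecMain7P.{u, v} P) (hMfd : AC.SpecMfd2.{u, v} P)
    (hR : SpecRateAll.{u, v}) (hD : SpecDfct.{u, v}) :
    SpecCD.{u, v} P := by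
  intro V _ _ _ M _ _ _ _ _ _ _ _ f Es Eu hA U hU d hd s b a κ hs hsb ha hκ hB
  have hnt : ¬ TopTransitive f := AC.MfdM.not_transitive f.surjective hU
  have hd1 : 1 ≤ d := by
    rcases Nat.eq_zero_or_pos d with h0 | hd0
    · exact absurd (Holo.trans_of_zero f Es Eu hA fun x => (hd x).trans h0) hnt
    · exact hd0
  have hR' := hR f Es Eu hA U hU
  have hR1 := (hR' (-s)).1 hB.s_low
  have hR2 := (hR' b).2.1 hB.s_up
  have hR3 := (hR' (-a)).2.2.2 hB.u_low
  have hmin : ∀ᶠ ε in 𝓝[>] (0 : ℝ), ε < min s a :=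
    (eventually_lt_nhds (lt_min hs ha)).filter_mono nhdsWithin_le_nhds
  have hup : ∀ {C C' c t x : ℝ} {n : ℕ}, C ≤ C' → x ≤ C * Real.exp (c * n) * t → 0 ≤ t →
      x ≤ C' * Real.exp (c * n) * t := by
    intro C C' c t x n hC hx ht
    refine hx.trans ?_
    gcongr
  refine ⟨fun hdef => ?_, fun B haB hRB hdef => ?_⟩
  · have hD' := (hD f Es Eu hA U hU κ hκ).1 hdef
    have hc : Continuous fun ε : ℝ =>
        P d * (κ + ε) * ((b + ε) - (s - ε)) - (a - ε) * (s - ε) := by fun_prop
    have h1 : ∀ᶠ ε in 𝓝[>] (0 : ℝ),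
        0 ≤ P d * (κ + ε) * ((b + ε) - (s - ε)) - (a - ε) * (s - ε) := by
      filter_upwards [hmin, self_mem_nhdsWithin] with ε h3 h4
      have h5 := lt_min_iff.1 h3
      have h6 : (0 : ℝ) < ε := h4
      by_contra hcon
      push Not at hcon
      obtain ⟨C1, hC1⟩ := hR1 ε h6
      obtain ⟨C2, hC2⟩ := hR2 ε h6
      obtain ⟨C3, hC3⟩ := hR3 ε h6
      obtain ⟨C4, hC4⟩ := hD' ε h6
      set C : ℝ := max (max C1 C2) (max C3 C4) with hC
      refine hnt (hMain f Es Eu hA d C (s - ε) (b + ε) (a - ε) (κ + ε) hd1 hd (by linarith [h5.1])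
        (by linarith) (by linarith [h5.2]) (by linarith) ⟨?_, ?_, ?_, ?_⟩ (by linarith))
      · intro n x v hv
        refine hup ((le_max_left C1 C2).trans (le_max_left _ _)) ?_ (norm_nonneg v)
        have := hC1 n x trivial v hv
        rwa [show -s + ε = -(s - ε) by ring] at this
      · intro n x v hv
        exact hup ((le_max_right C1 C2).trans (le_max_left _ _)) (hC2 n x trivial v hv)
          (norm_nonneg v)
      · intro n x v hv
        refine hup ((le_max_left C3 C4).trans (le_max_right _ _)) ?_ (norm_nonneg v)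
        have := hC3 n x trivial v hv
        rwa [show -a + ε = -(a - ε) by ring] at this
      · intro n x v hv w hw
        rw [mul_assoc _ ‖mfderiv 𝓘(ℝ, V) 𝓘(ℝ, V) ((⇑f)^[n]) x w‖]
        refine hup ((le_max_right C3 C4).trans (le_max_right _ _)) ?_ (by positivity)
        rw [← mul_assoc]
        exact hC4 n x trivial v hv w hw
    have h8 : 0 ≤ (fun ε : ℝ => P d * (κ + ε) * ((b + ε) - (s - ε)) - (a - ε) * (s - ε)) 0 :=
      ge_of_tendsto ((hc.tendsto 0).mono_left nhdsWithin_le_nhds) h1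
    simp only [add_zero, sub_zero] at h8
    linarith
  · have hD' := (hD f Es Eu hA U hU κ hκ).2 hdef
    have hR4 := (hR' B).2.2.1 hRB
    have hc : Continuous fun ε : ℝ => P d * (κ + ε) *
        ((b + ε - (s - ε)) * (B + ε) - (a - ε) * (s - ε)) - (a - ε) ^ 2 * (s - ε) := by fun_prop
    have h1 : ∀ᶠ ε in 𝓝[>] (0 : ℝ), 0 ≤ P d * (κ + ε) *
        ((b + ε - (s - ε)) * (B + ε) - (a - ε) * (s - ε)) - (a - ε) ^ 2 * (s - ε) := by
      filter_upwards [hmin, self_mem_nhdsWithin] with ε h3 h4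
      have h5 := lt_min_iff.1 h3
      have h6 : (0 : ℝ) < ε := h4
      obtain ⟨C1, hC1⟩ := hR1 ε h6
      obtain ⟨C2, hC2⟩ := hR2 ε h6
      obtain ⟨C3, hC3⟩ := hR3 ε h6
      obtain ⟨C4, hC4⟩ := hD' ε h6
      obtain ⟨C5, hC5⟩ := hR4 ε h6
      set C : ℝ := max (max (max C1 C2) (max C3 C4)) C5 with hC
      obtain ⟨x⟩ : Nonempty M := inferInstance
      have h7 := hMfd f Es Eu hA C (s - ε) (b + ε) (a - ε) (B + ε) (κ + ε) (by linarith [h5.1])
        (by linarith) (by linarith [h5.2]) (by linarith) (by linarith) ⟨?_, ?_, ?_, ?_⟩ U hU ?_ x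
      · rw [hd x] at h7
        linarith
      · intro n x v hv
        refine hup ((le_max_left C1 C2).trans ((le_max_left _ _).trans (le_max_left _ _))) ?_
          (norm_nonneg v)
        have := hC1 n x trivial v hv
        rwa [show -s + ε = -(s - ε) by ring] at this
      · intro n x v hv
        exact hup ((le_max_right C1 C2).trans ((le_max_left _ _).trans (le_max_left _ _)))
          (hC2 n x trivial v hv) (norm_nonneg v)
      · intro n x v hv
        refine hup ((le_max_left C3 C4).trans ((le_max_right _ _).trans (le_max_left _ _))) ?_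
          (norm_nonneg v)
        have := hC3 n x trivial v hv
        rwa [show -a + ε = -(a - ε) by ring] at this
      · intro n x v hv
        exact hup (le_max_right _ _) (hC5 n x trivial v hv) (norm_nonneg v)
      · intro n x hx v hv w hw
        rw [mul_assoc _ ‖mfderiv 𝓘(ℝ, V) 𝓘(ℝ, V) ((⇑f)^[n]) x w‖]
        refine hup ((le_max_right C3 C4).trans ((le_max_right _ _).trans (le_max_left _ _))) ?_
          (by positivity)
        rw [← mul_assoc]
        exact hC4 n x hx v hv w hw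
    have h8 : 0 ≤ (fun ε : ℝ => P d * (κ + ε) *
        ((b + ε - (s - ε)) * (B + ε) - (a - ε) * (s - ε)) - (a - ε) ^ 2 * (s - ε)) 0 :=
      ge_of_tendsto ((hc.tendsto 0).mono_left nhdsWithin_le_nhds) h1
    simp only [add_zero, sub_zero] at h8
    linarith

end Pool.Agent.Lib.MP610fe3.CD
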