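import Pool.Agent.Lib.MP_610fe3_an.PR.AD
import Pool.Agent.Lib.MP_610fe3_an.AP.Per

/-!
# The defect of conformality over an attractor and its repeller

The conjugation cocycle `dc` of PR/AD.lean: its growth is the defect of conformality.
-/

open Set Filter Function
open scoped Topology

namespace Pool.Agent.Lib.MP610fe3.CD

open PR PR.ADM AP
open Cf hiding Att Trap

universe u v

section Cocycle

variable {M : Type u} [MetricSpace M] {W : Type v} [NormedAddCommGroup W]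
    [InnerProductSpace ℝ W] {J : Emb M W} {f : M ≃ₜ M} (S : Split J f)

/-- The conjugation cocycle on the unstable bundle. -/
noncomputable def dc (x : M) : (W →L[ℝ] W) →L[ℝ] (W →L[ℝ] W) := cj (A S x) (B S x)

/-- The distortion of the products on the unstable space of `x` is at most `C exp (t n)`. -/
def ConfAt (C t : ℝ) (x : M) : Prop :=
  ∀ (n : ℕ) (v w : W), ‖iterD S.D f n x (S.U x v)‖ * ‖S.U x w‖ ≤
    C * Real.exp (t * n) * ‖iterD S.D f n x (S.U x w)‖ * ‖S.U x v‖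

theorem dc_le {K : ℝ} (hK1 : 1 ≤ K) (hKU : ∀ x, ‖S.U x‖ ≤ K) {C t : ℝ} {p : M}
    (h : ConfAt S C t p) (n : ℕ) :
    ‖iterD (dc S) f n p‖ ≤ (1 + |C| * (K * K)) * Real.exp (t * n) := by
  have hK0 : 0 ≤ K := by linarith
  have hexp := Real.exp_pos (t * n)
  rcases n with _ | n
  · have h1 : ‖iterD (dc S) f 0 p‖ ≤ 1 := ContinuousLinearMap.norm_id_le (𝕜 := ℝ) (E := W →L[ℝ] W)
    have h2 : 0 ≤ |C| * (K * K) := by positivity
    simp only [Nat.cast_zero, mul_zero, Real.exp_zero, mul_one]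
    linarith
  refine ContinuousLinearMap.opNorm_le_bound _ (by positivity) fun T => ?_
  refine ContinuousLinearMap.opNorm_le_bound _ (by positivity) fun z => ?_
  have e1 : iterD (dc S) f (n + 1) p T z = iterD (A S) f (n + 1) p (T (Bn S (n + 1) p z)) := by
    show iterD (fun x => cj (A S x) (B S x)) f (n + 1) p T z = _
    rw [it_cj]
    rfl
  rw [e1]
  set w := Bn S (n + 1) p z with hw
  have hUw : S.U p w = w := U_Bn S n p z
  have h1 : iterD (A S) f (n + 1) p (T w) = iterD S.D f (n + 1) p (S.U p (T w)) := by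
    rw [← itA_succ_U, itA_U]
  have h2 : iterD S.D f (n + 1) p (S.U p w) = S.U (f^[n + 1] p) z := by
    rw [← itA_U, itA_succ_U, hw, itA_Bn]
  have h3 := h (n + 1) (T w) w
  rw [h2, hUw] at h3
  rw [h1]
  rcases eq_or_ne w 0 with h0 | h0
  · rw [h0, map_zero, map_zero, map_zero, norm_zero]
    positivity
  have hwpos : 0 < ‖w‖ := norm_pos_iff.2 h0
  have h4 : ‖S.U (f^[n + 1] p) z‖ ≤ K * ‖z‖ :=
    (S.U (f^[n + 1] p)).le_of_opNorm_le (hKU (f^[n + 1] p)) z
  have h5 : ‖S.U p (T w)‖ ≤ K * (‖T‖ * ‖w‖) :=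
    ((S.U p).le_of_opNorm_le (hKU p) _).trans
      (mul_le_mul_of_nonneg_left (T.le_opNorm w) hK0)
  refine le_of_mul_le_mul_right ?_ hwpos
  calc ‖iterD S.D f (n + 1) p (S.U p (T w))‖ * ‖w‖
      ≤ C * Real.exp (t * (n + 1 : ℕ)) * ‖S.U (f^[n + 1] p) z‖ * ‖S.U p (T w)‖ := h3
    _ ≤ |C| * Real.exp (t * (n + 1 : ℕ)) * (K * ‖z‖) * (K * (‖T‖ * ‖w‖)) := by
        gcongr
        exact le_abs_self C
    _ ≤ (1 + |C| * (K * K)) * Real.exp (t * (n + 1 : ℕ)) * ‖T‖ * ‖z‖ * ‖w‖ := by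
        have h6 : 0 ≤ Real.exp (t * (n + 1 : ℕ)) * ‖T‖ * ‖z‖ * ‖w‖ := by positivity
        nlinarith

theorem conf_of_dc {C t : ℝ} {x : M}
    (h : ∀ n : ℕ, ‖iterD (dc S) f n x‖ ≤ C * Real.exp (t * n)) : ConfAt S C t x := by
  intro n v w
  rcases eq_or_ne (S.U x w) 0 with h0 | h0
  · rw [h0, map_zero, norm_zero]
    simp
  have hpos : 0 < ‖S.U x w‖ := norm_pos_iff.2 h0
  -- the operator of rank one
  set φ : W →L[ℝ] ℝ := innerSL ℝ (S.U x w) with hφ
  set T : W →L[ℝ] W := φ.smulRight (S.U x v) with hT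
  have hTn : ‖T‖ ≤ ‖S.U x w‖ * ‖S.U x v‖ := by
    rw [hT, ContinuousLinearMap.norm_smulRight_apply, hφ, innerSL_apply_norm]
  have h1 : iterD (dc S) f n x T (iterD (A S) f n x (S.U x w)) =
      ‖S.U x w‖ ^ 2 • iterD S.D f n x (S.U x v) := by
    show iterD (fun x => cj (A S x) (B S x)) f n x T (iterD (A S) f n x (S.U x w)) = _
    rw [it_cj]
    show iterD (A S) f n x (T (Bn S n x (iterD (A S) f n x (S.U x w)))) = _
    rw [Bn_itA]
    have h2 : T (S.U x w) = ‖S.U x w‖ ^ 2 • S.U x v := by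
      rw [hT, ContinuousLinearMap.smulRight_apply, hφ, innerSL_apply_apply,
        real_inner_self_eq_norm_sq]
    rw [h2, map_smul, itA_U]
  have h2 : ‖S.U x w‖ ^ 2 * ‖iterD S.D f n x (S.U x v)‖ ≤
      C * Real.exp (t * n) * (‖S.U x w‖ * ‖S.U x v‖) *
        ‖iterD S.D f n x (S.U x w)‖ := by
    have h3 : ‖iterD (dc S) f n x T (iterD (A S) f n x (S.U x w))‖ ≤
        ‖iterD (dc S) f n x T‖ * ‖iterD (A S) f n x (S.U x w)‖ := ContinuousLinearMap.le_opNorm _ _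
    rw [h1, norm_smul, Real.norm_of_nonneg (by positivity), itA_U] at h3
    refine h3.trans (mul_le_mul_of_nonneg_right ?_ (norm_nonneg _))
    have hC0 : 0 ≤ C * Real.exp (t * n) := (norm_nonneg _).trans (h n)
    calc ‖iterD (dc S) f n x T‖ ≤ ‖iterD (dc S) f n x‖ * ‖T‖ := ContinuousLinearMap.le_opNorm _ _
      _ ≤ C * Real.exp (t * n) * (‖S.U x w‖ * ‖S.U x v‖) :=
          mul_le_mul (h n) hTn (norm_nonneg _) hC0
  refine le_of_mul_le_mul_right ?_ hpos
  nlinarith [h2]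

end Cocycle

section Holder

variable {M : Type u} [MetricSpace M] [CompactSpace M] {W : Type v} [NormedAddCommGroup W]
    [InnerProductSpace ℝ W] [FiniteDimensional ℝ W] {J : Emb M W} {f : M ≃ₜ M} (S : Split J f)

omit [FiniteDimensional ℝ W] in
theorem dc_cont (hS : S.Hyperbolic) : Continuous (dc S) := by
  have hA : Continuous (A S) := S.hD.cont.clm_comp (S.contU hS)
  have hB : Continuous (B S) := (S.contU hS).clm_comp (S.hDi.cont.comp f.continuous)
  have h1 : Continuous fun x => ContinuousLinearMap.compL ℝ W W W (A S x) :=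
    (ContinuousLinearMap.compL ℝ W W W).continuous.comp hA
  have h2 : Continuous fun x => (ContinuousLinearMap.compL ℝ W W W).flip (B S x) :=
    (ContinuousLinearMap.compL ℝ W W W).flip.continuous.comp hB
  exact h1.clm_comp h2

omit [FiniteDimensional ℝ W] in
/-- Hölder continuity of the conjugation cocycle. -/
theorem dc_holder {C β : ℝ} (hβ : 0 < β) (hβ1 : β ≤ 1)
    (hD : ∀ x y, ‖S.D x - S.D y‖ ≤ C * dist x y ^ β)
    (hDi : ∀ x y, ‖S.Di x - S.Di y‖ ≤ C * dist x y ^ β)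
    (hU : ∀ x y, ‖S.U x - S.U y‖ ≤ C * dist x y ^ β)
    (hf : ∀ x y, dist (f x) (f y) ≤ C * dist x y) :
    ∃ B₀ H : ℝ, (∀ x, ‖dc S x‖ ≤ B₀) ∧ ∀ x y, ‖dc S x - dc S y‖ ≤ H * dist x y ^ β := by
  obtain ⟨K₀, hK₀⟩ := S.bdd
  obtain ⟨K₁, hK₁1, hK₁⟩ := exists_norm_bound S.hD.cont
  obtain ⟨K₂, hK₂1, hK₂⟩ := exists_norm_bound S.hDi.cont
  -- one constant for everything
  obtain ⟨K, hK1, hKU, hKD, hKDi, hCK⟩ : ∃ K : ℝ, 1 ≤ K ∧ (∀ x, ‖S.U x‖ ≤ K) ∧
      (∀ x, ‖S.D x‖ ≤ K) ∧ (∀ x, ‖S.Di x‖ ≤ K) ∧ C ≤ K := by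
    refine ⟨max (max K₀ C) (max K₁ K₂), ?_, fun x => ?_, fun x => ?_, fun x => ?_, ?_⟩
    · exact hK₁1.trans ((le_max_left _ _).trans (le_max_right _ _))
    · exact (hK₀ x).2.trans ((le_max_left _ _).trans (le_max_left _ _))
    · exact (hK₁ x).trans ((le_max_left _ _).trans (le_max_right _ _))
    · exact (hK₂ x).trans ((le_max_right _ _).trans (le_max_right _ _))
    · exact (le_max_right _ _).trans (le_max_left _ _)
  have hK0 : 0 ≤ K := by linarith
  have hd0 : ∀ x y : M, 0 ≤ dist x y ^ β := fun x y => Real.rpow_nonneg dist_nonneg _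
  have hD' : ∀ x y, ‖S.D x - S.D y‖ ≤ K * dist x y ^ β := fun x y =>
    (hD x y).trans (mul_le_mul_of_nonneg_right hCK (hd0 x y))
  have hU' : ∀ x y, ‖S.U x - S.U y‖ ≤ K * dist x y ^ β := fun x y =>
    (hU x y).trans (mul_le_mul_of_nonneg_right hCK (hd0 x y))
  have hDif : ∀ x y, ‖S.Di (f x) - S.Di (f y)‖ ≤ K * K * dist x y ^ β := by
    intro x y
    refine (hDi _ _).trans ((mul_le_mul_of_nonneg_right hCK (hd0 _ _)).trans ?_)
    rw [mul_assoc]
    refine mul_le_mul_of_nonneg_left ?_ hK0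
    have h1 : dist (f x) (f y) ≤ K * dist x y :=
      (hf x y).trans (mul_le_mul_of_nonneg_right hCK dist_nonneg)
    refine (Real.rpow_le_rpow dist_nonneg h1 hβ.le).trans ?_
    rw [Real.mul_rpow hK0 dist_nonneg]
    refine mul_le_mul_of_nonneg_right ?_ (hd0 x y)
    exact (Real.rpow_le_rpow_of_exponent_le hK1 hβ1).trans (le_of_eq (Real.rpow_one K))
  have hAn : ∀ x, ‖A S x‖ ≤ K * K := fun x =>
    (ContinuousLinearMap.opNorm_comp_le _ _).trans
      (mul_le_mul (hKD x) (hKU x) (norm_nonneg _) hK0)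
  have hBn : ∀ x, ‖B S x‖ ≤ K * K := fun x =>
    (ContinuousLinearMap.opNorm_comp_le _ _).trans
      (mul_le_mul (hKU x) (hKDi (f x)) (norm_nonneg _) hK0)
  have hA : ∀ x y, ‖A S x - A S y‖ ≤ 2 * (K * K * K) * dist x y ^ β := by
    intro x y
    have e : A S x - A S y = (S.D x - S.D y) ∘L S.U x + S.D y ∘L (S.U x - S.U y) := by
      ext v
      simp [A]
    rw [e]
    have h1 := ContinuousLinearMap.opNorm_comp_le (S.D x - S.D y) (S.U x)
    have h2 := ContinuousLinearMap.opNorm_comp_le (S.D y) (S.U x - S.U y)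
    have h3 : ‖S.D x - S.D y‖ * ‖S.U x‖ ≤ K * dist x y ^ β * K :=
      mul_le_mul (hD' x y) (hKU x) (norm_nonneg _) (mul_nonneg hK0 (hd0 x y))
    have h4 : ‖S.D y‖ * ‖S.U x - S.U y‖ ≤ K * (K * dist x y ^ β) :=
      mul_le_mul (hKD y) (hU' x y) (norm_nonneg _) hK0
    have h5 : K * K * dist x y ^ β ≤ K * K * K * dist x y ^ β := by
      refine mul_le_mul_of_nonneg_right ?_ (hd0 x y)
      nlinarith
    refine (norm_add_le _ _).trans ?_
    nlinarith
  have hB : ∀ x y, ‖B S x - B S y‖ ≤ 2 * (K * K * K) * dist x y ^ β := by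
    intro x y
    have e : B S x - B S y = (S.U x - S.U y) ∘L S.Di (f x) +
        S.U y ∘L (S.Di (f x) - S.Di (f y)) := by
      ext v
      simp [B]
    rw [e]
    have h1 := ContinuousLinearMap.opNorm_comp_le (S.U x - S.U y) (S.Di (f x))
    have h2 := ContinuousLinearMap.opNorm_comp_le (S.U y) (S.Di (f x) - S.Di (f y))
    have h3 : ‖S.U x - S.U y‖ * ‖S.Di (f x)‖ ≤ K * dist x y ^ β * K :=
      mul_le_mul (hU' x y) (hKDi _) (norm_nonneg _) (mul_nonneg hK0 (hd0 x y))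
    have h4 : ‖S.U y‖ * ‖S.Di (f x) - S.Di (f y)‖ ≤ K * (K * K * dist x y ^ β) :=
      mul_le_mul (hKU y) (hDif x y) (norm_nonneg _) hK0
    have h5 : K * K * dist x y ^ β ≤ K * K * K * dist x y ^ β := by
      refine mul_le_mul_of_nonneg_right ?_ (hd0 x y)
      nlinarith
    refine (norm_add_le _ _).trans ?_
    nlinarith
  refine ⟨K * K * (K * K), 4 * (K * K * K) * (K * K), fun x => ?_, fun x y => ?_⟩
  · exact (cj_norm_le _ _).trans (mul_le_mul (hAn x) (hBn x) (norm_nonneg _) (by positivity))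
  · unfold dc
    rw [cj_sub]
    have h1 := cj_norm_le (A S x - A S y) (B S x)
    have h2 := cj_norm_le (A S y) (B S x - B S y)
    have h3 : ‖A S x - A S y‖ * ‖B S x‖ ≤ 2 * (K * K * K) * dist x y ^ β * (K * K) :=
      mul_le_mul (hA x y) (hBn x) (norm_nonneg _)
        (mul_nonneg (by positivity) (hd0 x y))
    have h4 : ‖A S y‖ * ‖B S x - B S y‖ ≤ K * K * (2 * (K * K * K) * dist x y ^ β) :=
      mul_le_mul (hAn y) (hB x y) (norm_nonneg _) (by positivity)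
    have h5 := norm_add_le (cj (A S x - A S y) (B S x)) (cj (A S y) (B S x - B S y))
    refine h5.trans ?_
    nlinarith

variable {S}

/-- The defect over a good invariant set, uniformly, or from the periodic points. -/
theorem defectOn (hKal : SpecKal.{u, v}) (hS : S.Hyperbolic) {X : Set M} (hX : Good f X)
    {κ : ℝ} (h : (∀ ε : ℝ, 0 < ε → ∃ C : ℝ, ∀ x ∈ X, ConfAt S C (κ + ε) x) ∨
      ((∃ C β : ℝ, 0 < β ∧ β ≤ 1 ∧ (∀ x y, ‖S.D x - S.D y‖ ≤ C * dist x y ^ β) ∧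
        (∀ x y, ‖S.Di x - S.Di y‖ ≤ C * dist x y ^ β) ∧
        (∀ x y, ‖S.U x - S.U y‖ ≤ C * dist x y ^ β) ∧
        (∀ x y, dist (f x) (f y) ≤ C * dist x y)) ∧
      ∀ p ∈ X, ∀ q : ℕ, 0 < q → f^[q] p = p → ∀ ε : ℝ, 0 < ε → ∃ C : ℝ,
        ConfAt S C (κ + ε) p)) :
    SRate f (dc S) κ X := by
  obtain ⟨K₀, hK₀⟩ := S.bdd
  have hKU : ∀ x, ‖S.U x‖ ≤ max K₀ 1 := fun x => (hK₀ x).2.trans (le_max_left _ _)
  rcases h with h | ⟨⟨C, β, hβ, hβ1, hD, hDi, hU, hf⟩, h⟩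
  · intro ε hε
    obtain ⟨C, hC⟩ := h ε hε
    exact ⟨_, fun n x hx => dc_le S (le_max_right _ _) hKU (hC x hx) n⟩
  · obtain ⟨B₀, H, hB, hH⟩ := dc_holder S hβ hβ1 hD hDi hU hf
    obtain ⟨c, hc, hloc⟩ := hX.loc
    refine kalOn hKal S hS hX.closed hX.inv hc hloc (dc S) B₀ H β hB hβ hβ1 hH κ
      fun p hpA q hq hp ε hε => ?_
    obtain ⟨C', hC'⟩ := h p hpA q hq hp ε hε
    exact ⟨_, fun n => dc_le S (le_max_right _ _) hKU hC' n⟩

/-- From the attractor and the repeller to the whole space. -/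
theorem defectAll (hS : S.Hyperbolic) {U : Set M} (hT : N3.Trap f U) {κ : ℝ}
    (h : SRate f (dc S) κ (N3.Att f U ∪ N3.Rep f U)) : SRate f (dc S) κ univ :=
  h.all hT (dc_cont S hS)

omit [CompactSpace M] [FiniteDimensional ℝ W] in
theorem conf_of_srate {X : Set M} {κ : ℝ} (h : SRate f (dc S) κ X) {ε : ℝ} (hε : 0 < ε) :
    ∃ C : ℝ, ∀ x ∈ X, ConfAt S C (κ + ε) x := by
  obtain ⟨C, hC⟩ := h ε hε
  exact ⟨C, fun x hx => conf_of_dc S fun n => hC n x hx⟩

end Holder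

end Pool.Agent.Lib.MP610fe3.CD
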