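import Pool.Agent.Lib.MP_610fe3_an.CD.Statement

/-!
# Module CD: the two halves

`SpecRateAll` (rates) and `SpecDfct` (defect of conformality): bounds over `A ∪ R`, uniform, or at the
periodic points of a `C^2` diffeomorphism, are uniform bounds on `M`; a bound for the defect over `A`
is a uniform bound over `A`.
-/

open Set Filter Function Bundle
open scoped Manifold ContDiff Topology

namespace Pool.Agent.Lib.MP610fe3.CD

open AP (Att Rep Rate UniRate)

universe u v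

/-- Module R: rates over `A ∪ R` are rates on `M`, for `f` and `f⁻¹`, `Es` and `Eu`. -/
def SpecRateAll : Prop :=
  ∀ {V : Type u} [NormedAddCommGroup V] [NormedSpace ℝ V] [FiniteDimensional ℝ V]
    {M : Type v} [TopologicalSpace M] [CompactSpace M] [T2Space M] [ConnectedSpace M]
    [ChartedSpace V M] [IsManifold 𝓘(ℝ, V) ∞ M]
    [RiemannianBundle (fun x : M => TangentSpace 𝓘(ℝ, V) x)]
    [IsContinuousRiemannianBundle V (fun x : M => TangentSpace 𝓘(ℝ, V) x)]
    (f : M ≃ₘ^1⟮𝓘(ℝ, V), 𝓘(ℝ, V)⟯ M)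
    (Es Eu : ∀ x : M, Submodule ℝ (TangentSpace 𝓘(ℝ, V) x)), Gen.IsAnosovSplitting f Es Eu →
    ∀ U : Set M, AC.ProperAttracting f U → ∀ c : ℝ,
    (Rate f f Es c (Att f U ∪ Rep f U) → UniRate f Es c univ) ∧
    (Rate f f.symm Es c (Att f U ∪ Rep f U) → UniRate f.symm Es c univ) ∧
    (Rate f f Eu c (Att f U ∪ Rep f U) → UniRate f Eu c univ) ∧
    (Rate f f.symm Eu c (Att f U ∪ Rep f U) → UniRate f.symm Eu c univ)

/-- Module D: the defect of conformality of `Eu`. -/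
def SpecDfct : Prop :=
  ∀ {V : Type u} [NormedAddCommGroup V] [NormedSpace ℝ V] [FiniteDimensional ℝ V]
    {M : Type v} [TopologicalSpace M] [CompactSpace M] [T2Space M] [ConnectedSpace M]
    [ChartedSpace V M] [IsManifold 𝓘(ℝ, V) ∞ M]
    [RiemannianBundle (fun x : M => TangentSpace 𝓘(ℝ, V) x)]
    [IsContinuousRiemannianBundle V (fun x : M => TangentSpace 𝓘(ℝ, V) x)]
    (f : M ≃ₘ^1⟮𝓘(ℝ, V), 𝓘(ℝ, V)⟯ M)
    (Es Eu : ∀ x : M, Submodule ℝ (TangentSpace 𝓘(ℝ, V) x)), Gen.IsAnosovSplitting f Es Eu →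
    ∀ U : Set M, AC.ProperAttracting f U → ∀ κ : ℝ, 0 ≤ κ →
    (Defect f Eu κ (Att f U ∪ Rep f U) → UniDefect f Eu κ univ) ∧
    (Defect f Eu κ (Att f U) → UniDefect f Eu κ (Att f U))

end Pool.Agent.Lib.MP610fe3.CD
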