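import Pool.Agent.Lib.MP_610fe3_an.AC.PERA
import Pool.Agent.Lib.MP_610fe3_an.AP.Mfd
import Pool.Agent.Lib.MP_610fe3_an.CD.Dc
import Pool.Agent.Lib.MP_610fe3_an.CD.Spec

/-!
# Module D: the defect of conformality over an attractor and its repeller, on manifolds
-/

open Set Filter Function Bundle
open scoped Manifold ContDiff Topology

namespace Pool.Agent.Lib.MP610fe3.CD

open Gen Cf.Mfd PR PR.PER H6
open AP (Att Rep SRate good_att good_union mem_att mem_rep holder_data)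

universe u v

section Metric

variable {V : Type u} [NormedAddCommGroup V] [NormedSpace ℝ V] [FiniteDimensional ℝ V] {N : ℕ}
  {M : Type v} [MetricSpace M] [CompactSpace M]
  [ChartedSpace V M] [IsManifold 𝓘(ℝ, V) ∞ M]
  [RiemannianBundle (fun x : M => TangentSpace 𝓘(ℝ, V) x)]
  [IsContinuousRiemannianBundle V (fun x : M => TangentSpace 𝓘(ℝ, V) x)]

theorem dfct_metric (hHol : SpecHol.{v, 0}) (hKal : SpecKal.{v, 0})
    (e : M → EuclideanSpace ℝ (Fin N)) (hiso : Isometry e)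
    (he : ContMDiff 𝓘(ℝ, V) (𝓡 N) ∞ e)
    (hinj : ∀ x, Injective (mfderiv 𝓘(ℝ, V) (𝓡 N) e x))
    (f : M ≃ₘ^1⟮𝓘(ℝ, V), 𝓘(ℝ, V)⟯ M)
    (Es Eu : ∀ x : M, Submodule ℝ (TangentSpace 𝓘(ℝ, V) x))
    (hA : Gen.IsAnosovSplitting f Es Eu) {U : Set M} (hU : AC.ProperAttracting f U) {κ : ℝ} :
    (Defect f Eu κ (Att f U ∪ Rep f U) → UniDefect f Eu κ univ) ∧
      (Defect f Eu κ (Att f U) → UniDefect f Eu κ (Att f U)) := by
  obtain ⟨E, hE, hEP, hr⟩ := Gen.exists_emb e hiso he hinj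
  subst hE
  obtain ⟨S, hS, hSs, hSu⟩ := Gen.exists_split E he hinj hr f Es Eu hA
  have hinj' : ∀ x, Injective (dF V E.e x) := hinj
  obtain ⟨c₀, C₁, hc₀, hC₁, hn⟩ := exists_norm_bounds E.e he hinj
  have hn' : ∀ x (v : TangentSpace 𝓘(ℝ, V) x), c₀ * ‖v‖ ≤ ‖dE V E.e x v‖ ∧
      ‖dE V E.e x v‖ ≤ C₁ * ‖v‖ := by
    intro x v
    have h1 := hn x v
    rw [norm_tangentSpace_vectorSpace] at h1
    exact h1
  have he1 : ContMDiff 𝓘(ℝ, V) (𝓡 N) 1 E.e := he.of_le (by exact_mod_cast le_top)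
  have hit : ∀ {h : M → M}, ContMDiff 𝓘(ℝ, V) 𝓘(ℝ, V) 1 h →
      ∀ {D : M → EuclideanSpace ℝ (Fin N) →L[ℝ] EuclideanSpace ℝ (Fin N)}, HasD E h D →
      ∀ (k : ℕ) x (v : TangentSpace 𝓘(ℝ, V) x), iterD D h k x (dE V E.e x v) =
        dE V E.e (h^[k] x) (mfderiv 𝓘(ℝ, V) 𝓘(ℝ, V) (h^[k]) x v) := by
    intro h hh D hD k x v
    refine iterD_dE he hh (fun x u => ?_) k x v
    have h3 := mfderiv_comp (I := 𝓘(ℝ, V)) (I' := 𝓘(ℝ, V)) (I'' := 𝓡 N) (f := h) x
      (he1.mdifferentiable (by norm_num) (h x)) (hh.mdifferentiable (by norm_num) x)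
    rw [HasD_eq_KF E he hinj hEP hh hD x]
    refine (KF_apply hinj' x u).trans ?_
    unfold dF
    rw [h3]
    rfl
  have hm1 : ∀ x w, ∃ v ∈ Eu x, dE V E.e x v = S.U x w := by
    intro x w
    have h1 : S.U x w ∈ (S.U x).range := ⟨w, rfl⟩
    rw [hSu x] at h1
    obtain ⟨v', hv', hvv'⟩ := h1
    exact ⟨v', hv', hvv'⟩
  have hm2 : ∀ x, ∀ v ∈ Eu x, S.U x (dE V E.e x v) = dE V E.e x v := by
    intro x v hv
    have h1 : dE V E.e x v ∈ (Eu x).map (mfderiv 𝓘(ℝ, V) (𝓡 N) E.e x).toLinearMap := ⟨v, hv, rfl⟩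
    rw [← hSu x] at h1
    obtain ⟨w, hw⟩ := h1
    have h2 := congrArg (fun L => L w) (S.UU x)
    simp only [ContinuousLinearMap.comp_apply] at h2
    have hw' : S.U x w = dE V E.e x v := hw
    rw [← hw', h2]
  obtain ⟨hUo, hUne, hUuniv, hUt⟩ := hU
  have hT : N3.Trap f.toHomeomorph U := ⟨hUo, fun x hx => hUt ⟨x, hx, rfl⟩⟩
  have eA : Att f U = N3.Att f.toHomeomorph U := by
    ext x
    rw [mem_att]
    rfl
  have eR : Rep f U = N3.Rep f.toHomeomorph U := by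
    ext x
    rw [mem_rep]
    rfl
  obtain ⟨L₁, r₁, hL₁, hr₁, hl₁⟩ := S.hD.exists_lip
  obtain ⟨L₃, hL₃, hlip₁⟩ := T6.MainB.lip_of_local (f := f) (by linarith : (0 : ℝ) ≤ L₁) hr₁ hl₁
  -- from the tangent bundle to the cocycle
  have key : ∀ {X : Set M}, AP.Good f.toHomeomorph X → Defect f Eu κ X →
      SRate (⇑f.toHomeomorph) (dc S) κ X := by
    intro X hX h
    refine defectOn hKal hS hX (h.imp (fun h ε hε => ?_) fun ⟨h1, h2, h3⟩ => ⟨?_, ?_⟩)
    · obtain ⟨C, hC⟩ := h ε hε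
      exact ⟨_, fun x hx n v w => conf_amb hc₀ hC₁ hn' (hit f.contMDiff S.hD) hm1
        (fun n v hv w hw => hC n x hx v hv w hw) n v w⟩
    · obtain ⟨B, β, hβ, hβ1, hD, hDi, -, hU'⟩ := holder_data hHol E he hinj hEP f h1 h2 S hS
      refine ⟨max B L₃, β, hβ, hβ1, fun x y => (hD x y).trans ?_, fun x y => (hDi x y).trans ?_,
        fun x y => (hU' x y).trans ?_, fun x y => (hlip₁ x y).trans ?_⟩
      · have h0 : 0 ≤ dist x y ^ β := by positivity
        gcongr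
        exact le_max_left _ _
      · have h0 : 0 ≤ dist x y ^ β := by positivity
        gcongr
        exact le_max_left _ _
      · have h0 : 0 ≤ dist x y ^ β := by positivity
        gcongr
        exact le_max_left _ _
      · gcongr
        exact le_max_right _ _
    · intro p hp q hq hpq ε hε
      obtain ⟨C, hC⟩ := h3 p hp ⟨q, hq, hpq⟩ ε hε
      exact ⟨_, fun n v w => conf_amb hc₀ hC₁ hn' (hit f.contMDiff S.hD) hm1 hC n v w⟩
  -- from the cocycle to the tangent bundle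
  have back : ∀ {X : Set M}, SRate (⇑f.toHomeomorph) (dc S) κ X → UniDefect f Eu κ X := by
    intro X h ε hε
    obtain ⟨C, hC⟩ := conf_of_srate h hε
    exact ⟨_, fun n x hx v hv w hw => AC.PerAM.conf_mfd_at hc₀ hC₁ hn' (hit f.contMDiff S.hD) hm2
      (fun n v w => hC x hx n v w) n v hv w hw⟩
  constructor
  · intro h
    rw [eA, eR] at h
    exact back (defectAll hS hT (key (good_union hT) h))
  · intro h
    rw [eA] at h ⊢
    exact back (key (good_att hT) h)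

end Metric

/-- **Module D.** -/
theorem specDfct (hHol : SpecHol.{v, 0}) (hKal : SpecKal.{v, 0}) : SpecDfct.{u, v} := by
  intro V _ _ _ M _ _ _ _ _ _ _ _ f Es Eu hA U hU κ _
  obtain ⟨N, e, he, hemb, hinj⟩ := exists_embedding_euclidean_of_compact (I := 𝓘(ℝ, V)) (M := M)
  let _ : MetricSpace M := hemb.isEmbedding.comapMetricSpace e
  have hiso : Isometry e := hemb.isEmbedding.to_isometry
  exact dfct_metric hHol hKal e hiso he hinj f Es Eu hA hU

end Pool.Agent.Lib.MP610fe3.CD
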