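import Pool.Agent.Lib.MP_610fe3_an.AC.U2.AllE
import Pool.Agent.Lib.MP_610fe3_an.CD.FinalOf

/-!
# The `C^1` theorems with the number `4 (1 - 1 / d)`
-/

namespace Pool.Agent.Lib.MP610fe3.CD

universe u v

theorem specMfd2 : AC.SpecMfd2.{u, v} P := AC.U2.mfd2P2

theorem specCore7P : U1.SpecCore7P.{v} P := AC.U2.core7P2

end Pool.Agent.Lib.MP610fe3.CD
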