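import Pool.Agent.Lib.MP_610fe3_an.CD.Statement
import Pool.Agent.Lib.MP_610fe3_an.T7.MAIN7
import Pool.Agent.Lib.MP_610fe3_an.U1.Spec

/-!
# The `C^1` theorem, normalised estimate: choice of the rates, manifolds

Copy of `T6.MainB` and `T6.MainC`, without the hypothesis `κ < a`.
-/

open Set Filter Function Bundle Metric
open scoped Manifold ContDiff Topology

namespace Pool.Agent.Lib.MP610fe3.CD

open Cf H6 T4 T6 T7 U1

universe u v w

namespace Main7P

/-- Rates with strict inequalities. -/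
theorem exists_rates {D a s b κ : ℝ} (ha : 0 < a) (hs : 0 < s)
    (h : D * κ * (b - s) < a * s) : ∃ a' s' κ' : ℝ, 0 < a' ∧ a' < a ∧ 0 < s' ∧ s' < s ∧
      κ < κ' ∧ D * κ' * (b - s') < a' * s' := by
  have h1 : Tendsto (fun t : ℝ => (a - t) * (s - t) - D * (κ + t) * (b - (s - t)))
      (𝓝 0) (𝓝 (a * s - D * κ * (b - s))) := by
    have : Continuous (fun t : ℝ => (a - t) * (s - t) - D * (κ + t) * (b - (s - t))) := by
      fun_prop
    have h2 := this.tendsto 0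
    simpa using h2
  have h3 : ∀ᶠ t : ℝ in 𝓝[>] 0, 0 < (a - t) * (s - t) - D * (κ + t) * (b - (s - t)) :=
    (h1.eventually (lt_mem_nhds (by linarith))).filter_mono nhdsWithin_le_nhds
  have h5 : ∀ᶠ t : ℝ in 𝓝[>] 0, t < min a s :=
    (eventually_lt_nhds (lt_min ha hs)).filter_mono nhdsWithin_le_nhds
  obtain ⟨t, ⟨h6, h8⟩, h9⟩ := ((h3.and h5).and self_mem_nhdsWithin).exists
  have h9' : 0 < t := h9
  have h10 := lt_min_iff.1 h8
  exact ⟨a - t, s - t, κ + t, by linarith [h10.1], by linarith, by linarith [h10.2],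
    by linarith, by linarith, by linarith⟩

/-- The basin is everything, in the abstract setting. -/
theorem basin_univ {P : ℕ → ℝ} (specQc : SpecQc.{v, w}) (specCore : SpecCore7P.{v} P)
    {M : Type v} [MetricSpace M] [CompactSpace M] [ConnectedSpace M]
    {W : Type w} [NormedAddCommGroup W] [InnerProductSpace ℝ W] [FiniteDimensional ℝ W]
    {J : Emb M W} {f : M ≃ₜ M} (S : Split J f) (hS : S.Hyperbolic) {d : ℕ} (hd1 : 1 ≤ d)
    (hrank : ∀ x, Module.finrank ℝ ((S.U x).range) = d)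
    {C₀ a s b κ : ℝ} (hC₀ : 0 ≤ C₀) (ha : 0 < a) (hs : 0 < s) (hsb : s ≤ b) (hκ : 0 ≤ κ)
    (h1 : ∀ (k : ℕ) (x : M) (w : W), ‖iterD S.D f k x (S.S x w)‖ ≤ C₀ * Real.exp (-s) ^ k * ‖w‖)
    (h2 : ∀ (k : ℕ) (x : M) (w : W), ‖iterD S.Di f.symm k x (S.S x w)‖ ≤ C₀ * Real.exp b ^ k * ‖w‖)
    (h3 : ∀ (k : ℕ) (x : M) (w : W),
      ‖iterD S.Di f.symm k x (S.U x w)‖ ≤ C₀ * Real.exp (-a) ^ k * ‖w‖)
    (h4 : ∀ (n : ℕ) (x : M) (v w : W), ‖iterD S.D f n x (S.U x v)‖ * ‖S.U x w‖ ≤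
      C₀ * Real.exp κ ^ n * ‖iterD S.D f n x (S.U x w)‖ * ‖S.U x v‖)
    (hpinch : P d * κ * (b - s) < a * s)
    (A : Set M) (rA : ℝ) (hrA : 0 < rA) (hattr : ∀ r, r ≤ rA → Attr f A r) :
    ∃ r, r ≤ rA ∧ basin f A r = univ := by
  obtain ⟨a', s', κ', ha'0, ha', hs'0, hs', hκ', hineq⟩ := Main7P.exists_rates ha hs hpinch
  -- contraction
  obtain ⟨ε₁, C₁, hD₁⟩ := exists_dec_rate S hS (m := Real.exp (-s)) (l := Real.exp (-s'))
    (Real.exp_pos _) (Real.exp_lt_exp.2 (by linarith)) (by rw [Real.exp_lt_one_iff]; linarith) h1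
  obtain ⟨ε₂, C₂, hD₂⟩ := exists_dec_rate S.swap hS.swap (m := Real.exp (-a))
    (l := Real.exp (-a')) (Real.exp_pos _) (Real.exp_lt_exp.2 (by linarith))
    (by rw [Real.exp_lt_one_iff]; linarith) h3
  have hε₁ := hD₁.ε_pos
  have hε₂ := hD₂.ε_pos
  -- local product structure
  obtain ⟨εB, CB, hBr⟩ := br M W J f S hS
  have hεB := hBr.ε_pos
  -- quasiconformality
  obtain ⟨rq, Cq, hrq, hCq, hqc⟩ := specQc S hS C₀ (Real.exp κ) (Real.exp κ')
    (Real.one_le_exp hκ) (Real.exp_lt_exp.2 hκ') h4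
  rw [Real.log_exp] at hqc
  -- parametrizations
  obtain ⟨ρU, Λ, φ, hφ⟩ := exists_uplaq S.swap hS.swap (u := d) hrank
  -- Lipschitz bound
  obtain ⟨L₀, r₀, hL₀, hr₀, hlip₀⟩ := S.hD.exists_lip
  obtain ⟨L, hL, hlip⟩ := MainB.lip_of_local (f := f) (by linarith : (0 : ℝ) ≤ L₀) hr₀ hlip₀
  -- the constant
  set C : ℝ := max (max (max C₁ C₂) CB) (max (max Cq Λ) L) with hC
  have hC1 : 1 ≤ C := hD₁.one_le.trans ((le_max_left _ _).trans ((le_max_left _ _).trans
    (le_max_left _ _)))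
  have hC0 : 0 < C := by linarith
  have hCC₁ : C₁ ≤ C := (le_max_left _ _).trans ((le_max_left _ _).trans (le_max_left _ _))
  have hCC₂ : C₂ ≤ C := (le_max_right _ _).trans ((le_max_left _ _).trans (le_max_left _ _))
  have hCCB : CB ≤ C := (le_max_right _ _).trans (le_max_left _ _)
  have hCCq : Cq ≤ C := (le_max_left _ _).trans ((le_max_left _ _).trans (le_max_right _ _))
  have hCΛ : Λ ≤ C := (le_max_right _ _).trans ((le_max_left _ _).trans (le_max_right _ _))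
  have hCL : L ≤ C := (le_max_right _ _).trans (le_max_right _ _)
  -- the scales
  set r : ℝ := min (min (min ε₁ ε₂) (min εB rq)) rA with hr
  have hr0 : 0 < r := by positivity
  have hr1 : r ≤ ε₁ := (min_le_left _ _).trans ((min_le_left _ _).trans (min_le_left _ _))
  have hr2 : r ≤ ε₂ := (min_le_left _ _).trans ((min_le_left _ _).trans (min_le_right _ _))
  have hr3 : r ≤ εB := (min_le_left _ _).trans ((min_le_right _ _).trans (min_le_left _ _))
  have hr4 : r ≤ rq := (min_le_left _ _).trans ((min_le_right _ _).trans (min_le_right _ _))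
  have hr5 : r ≤ rA := min_le_right _ _
  obtain ⟨ρs, Λs, hρs, hΛs, hslow⟩ := exists_slow S hS (κ := Real.exp b) hC₀
    (Real.exp_pos _).le h2 (ε₁ := r) hr0
  obtain ⟨δ, hδ, hbr⟩ := hBr.exist (r / 16) (by positivity)
  set r₁ : ℝ := δ / 2 with hr₁
  have hr₁0 : 0 < r₁ := by positivity
  obtain ⟨ρ, hρ0, hρU, hρm⟩ := hφ.mem (r / 4) (by positivity)
  obtain ⟨ε', hε'0, honto⟩ := hφ.onto (ρ / 2) (by positivity)
  set e : ℝ := min (min (r / (64 * C)) (r₁ / 4)) (ε' / 4) with he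
  have he0 : 0 < e := by positivity
  have he1 : e ≤ r / (64 * C) := (min_le_left _ _).trans (min_le_left _ _)
  have he2 : e ≤ r₁ / 4 := (min_le_left _ _).trans (min_le_right _ _)
  have he3 : e ≤ ε' / 4 := min_le_right _ _
  have hsub : closedBall (0 : EuclideanSpace ℝ (Fin d)) ρ ⊆ closedBall 0 ρU :=
    closedBall_subset_closedBall hρU
  have hSys : Sys f d φ C a' s' κ' r r₁ e ρ :=
    { u_pos := hd1
      a_pos := ha'0
      b_pos := hs'0
      κ_nonneg := hκ.trans hκ'.le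
      fwd := hD₁.mono hr0 hr1 hCC₁ le_rfl hD₁.l_lt
      bwd := hD₂.mono hr0 hr2 hCC₂ le_rfl hD₂.l_lt
      br := hBr.mono hr0 hr3 hCCB
      lip := fun x y => (hlip x y).trans (mul_le_mul_of_nonneg_right hCL dist_nonneg)
      qc := MainB.Qc.mono hqc hr4 hCCq
      e_pos := he0
      e_le := by
        calc 64 * C * e ≤ 64 * C * (r / (64 * C)) := by gcongr
          _ = r := by field_simp
      r₁_pos := hr₁0
      e_le' := by linarith
      step := fun p q hpq => by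
        have h5 : dist q p < δ := by
          rw [dist_comm]
          exact hpq.trans_lt (by rw [hr₁]; linarith)
        obtain ⟨z, hz1, hz2⟩ := hbr q p h5
        exact ⟨z, hz2, hz1⟩
      ρ_pos := hρ0
      zero := hφ.zero
      upper := fun x p hp q hq => (hφ.upper x p (hsub hp) q (hsub hq)).trans
        (mul_le_mul_of_nonneg_right hCΛ dist_nonneg)
      lower := fun x p hp q hq => (hφ.lower x p (hsub hp) q (hsub hq)).trans
        (mul_le_mul_of_nonneg_right hCΛ dist_nonneg)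
      mem := hρm
      onto := fun x z hz => honto x z (Wl_mono (by linarith) hz) }
  refine ⟨r, hr5, specCore f d φ C a' s' κ' r r₁ e ρ ρs Λs b A hSys (hattr r hr5) hρs hΛs
    (by linarith) hslow hineq⟩

open Gen Mfd T4.MainA T6.MainC

/-- The theorem for metric spaces. -/
theorem main_metric {P : ℕ → ℝ} (specQc : SpecQc.{v, 0}) (specCore : SpecCore7P.{v} P)
    {V : Type u} [NormedAddCommGroup V] [NormedSpace ℝ V] [FiniteDimensional ℝ V] {N : ℕ}
    {M : Type v} [MetricSpace M] [CompactSpace M] [ConnectedSpace M]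
    [ChartedSpace V M] [IsManifold 𝓘(ℝ, V) ∞ M]
    [RiemannianBundle (fun x : M => TangentSpace 𝓘(ℝ, V) x)]
    [IsContinuousRiemannianBundle V (fun x : M => TangentSpace 𝓘(ℝ, V) x)]
    (e : M → EuclideanSpace ℝ (Fin N)) (hiso : Isometry e)
    (he : ContMDiff 𝓘(ℝ, V) (𝓡 N) ∞ e)
    (hinj : ∀ x, Injective (mfderiv 𝓘(ℝ, V) (𝓡 N) e x))
    (f : M ≃ₘ^1⟮𝓘(ℝ, V), 𝓘(ℝ, V)⟯ M)
    (Es Eu : ∀ x : M, Submodule ℝ (TangentSpace 𝓘(ℝ, V) x))
    (hA : Gen.IsAnosovSplitting f Es Eu) {d : ℕ} {C₀ s₀ b₀ a₀ κ₁ : ℝ} (hd : 1 ≤ d)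
    (hdim : ∀ x, Module.finrank ℝ (Eu x) = d) (hs₀ : 0 < s₀) (hsb₀ : s₀ ≤ b₀) (ha₀ : 0 < a₀)
    (hκ₁ : 0 ≤ κ₁) (hR₀ : Rates f Es Eu C₀ s₀ b₀ a₀ κ₁)
    (hpinch : P d * κ₁ * (b₀ - s₀) < a₀ * s₀) : TopTransitive f := by
  by_contra hnt
  obtain ⟨C, hC, hR⟩ : ∃ C : ℝ, 0 ≤ C ∧ Rates f Es Eu C s₀ b₀ a₀ κ₁ :=
    ⟨max C₀ 0, le_max_right _ _, Main7.rates_mono f Es Eu (le_max_left _ _) hR₀⟩
  obtain ⟨E, hE, hEP, hr⟩ := Gen.exists_emb e hiso he hinj
  subst hE
  -- the power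
  obtain ⟨S₀, hS₀, -, -⟩ := Gen.exists_split E he hinj hr f Es Eu hA
  obtain ⟨c, hc0, hc⟩ := S₀.expansive hS₀
  have hTM : TM.Hyp f.toHomeomorph c := ⟨hc0, hc, S₀.shadowing hS₀⟩
  obtain ⟨n, A, R, hn, hedge⟩ := hTM.exists_edge hnt
  obtain ⟨g, hg, hg', hAg, hRg⟩ := exists_pow f Es Eu C s₀ b₀ a₀ κ₁ hn hA hR
  obtain ⟨rA, hrA, hattr⟩ := exists_attr (g := g.toHomeomorph) hTM hn hg hg' hedge
  obtain ⟨S, hS, hSs, hSu⟩ := Gen.exists_split E he hinj hr g Es Eu hAg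
  obtain ⟨K, hK1, hK⟩ := S.exists_bdd
  have hK0 : 0 ≤ K := by linarith
  have hn0 : (0 : ℝ) < n := by exact_mod_cast hn
  have hexp : ∀ (t : ℝ) (k : ℕ), Real.exp (t * k) = Real.exp t ^ k := fun t k => exp_rate t k
  obtain ⟨C₁, hC₁, H₁⟩ := rate_transfer E he hinj hEP g.contMDiff S.hD hK0 (fun x => (hK x).1)
    hSs hC (Real.exp_pos (-(n * s₀))).le (fun k x v hv => by
      rw [← hexp]
      exact hRg.s_fwd k x v hv)
  obtain ⟨C₂, hC₂, H₂⟩ := rate_transfer E he hinj hEP g.symm.contMDiff S.hDi hK0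
    (fun x => (hK x).1) hSs hC (Real.exp_pos (n * b₀)).le (fun k x v hv => by
      rw [← hexp]
      exact hRg.s_bwd k x v hv)
  obtain ⟨C₃, hC₃, H₃⟩ := rate_transfer E he hinj hEP g.symm.contMDiff S.hDi hK0
    (fun x => (hK x).2) hSu hC (Real.exp_pos (-(n * a₀))).le (fun k x v hv => by
      rw [← hexp]
      exact hRg.u_bwd k x v hv)
  obtain ⟨C₄, hC₄, H₄⟩ := conf_transfer E he hinj hEP g.contMDiff S.hD hSu hC
    (Real.exp_pos (n * κ₁)).le (fun k x v hv w hw => by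
      rw [← hexp]
      exact hRg.conf k x v hv w hw)
  set C' : ℝ := max (max C₁ C₂) (max C₃ C₄) with hC'
  have hC'0 : 0 ≤ C' := hC₁.trans ((le_max_left _ _).trans (le_max_left _ _))
  have hup' : ∀ {κ c : ℝ} (k : ℕ) {t u : ℝ}, c ≤ C' → 0 ≤ κ → 0 ≤ t → u ≤ c * κ ^ k * t →
      u ≤ C' * κ ^ k * t := by
    intro κ c k t u hc hκ ht h
    refine h.trans ?_
    have : 0 ≤ κ ^ k := pow_nonneg hκ k
    gcongr
  have hrank : ∀ x, Module.finrank ℝ ((S.U x).range) = d := finrank_range_eq E hinj hSu hdim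
  have hns : n * s₀ ≤ n * b₀ := by gcongr
  obtain ⟨r, hr1, hr2⟩ := Main7P.basin_univ specQc specCore S hS hd hrank hC'0
    (a := n * a₀) (s := n * s₀) (b := n * b₀) (κ := n * κ₁) (by positivity) (by positivity) hns
    (by positivity)
    (fun k x w => hup' k ((le_max_left _ _).trans (le_max_left _ _)) (Real.exp_pos _).le
      (norm_nonneg _) (H₁ k x w))
    (fun k x w => hup' k ((le_max_right _ _).trans (le_max_left _ _)) (Real.exp_pos _).le
      (norm_nonneg _) (H₂ k x w))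
    (fun k x w => hup' k ((le_max_left _ _).trans (le_max_right _ _)) (Real.exp_pos _).le
      (norm_nonneg _) (H₃ k x w))
    (fun k x v w => by
      have h1 := H₄ k x v w
      rw [mul_assoc (C₄ * Real.exp (n * κ₁) ^ k)] at h1
      have h2 := hup' k ((le_max_right _ _).trans (le_max_right _ _)) (Real.exp_pos _).le
        (by positivity) h1
      rw [← mul_assoc] at h2
      exact h2)
    (by
      have h1 : P d * (n * κ₁) * (n * b₀ - n * s₀) =
          n * n * (P d * κ₁ * (b₀ - s₀)) := by ring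
      have h2 : (n : ℝ) * a₀ * (n * s₀) = n * n * (a₀ * s₀) := by ring
      rw [h1, h2]
      gcongr)
    A rA hrA (fun r hr => (hattr r hr).1)
  exact (hattr r hr1).2 hr2

end Main7P

open T6.MainC in
/-- The `C^1` theorem. -/
theorem specMain7P_of {P : ℕ → ℝ} (hCore : SpecCore7P.{v} P) : SpecMain7P.{u, v} P := by
  intro V _ _ _ M _ _ _ _ _ _ _ _ f Es Eu hA d C s b a κ hd hdim hs hsb ha hκ hR hp
  obtain ⟨N, e, he, hemb, hinj⟩ := exists_embedding_euclidean_of_compact (I := 𝓘(ℝ, V)) (M := M)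
  let _ : MetricSpace M := hemb.isEmbedding.comapMetricSpace e
  have hiso : Isometry e := hemb.isEmbedding.to_isometry
  exact Main7P.main_metric specQc hCore e hiso he hinj f Es Eu hA hd hdim hs hsb ha hκ hR hp

end Pool.Agent.Lib.MP610fe3.CD
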