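import Pool.Agent.Lib.MP_610fe3_an.CD.Rate
import Pool.Agent.Lib.MP_610fe3_an.CD.Spec

/-!
# Module R of CD
-/

open Set Filter Function Bundle
open scoped Manifold ContDiff Topology

namespace Pool.Agent.Lib.MP610fe3.CD

open PR

universe u v

/-- **Module R.** -/
theorem specRateAll_of (hHol : SpecHol.{v, 0}) (hKal : SpecKal.{v, 0}) : SpecRateAll.{u, v} := by
  intro V _ _ _ M _ _ _ _ _ _ _ _ f Es Eu hA U hU c
  obtain ⟨-, -, h⟩ := up_of hHol hKal f Es Eu hA hU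
  obtain ⟨h1, h2, h3, h4⟩ := h c
  exact ⟨h1, h3, h2, h4⟩

end Pool.Agent.Lib.MP610fe3.CD
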