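import Pool.Agent.Lib.MP_610fe3_an.CD.AllOf
import Pool.Agent.Lib.MP_610fe3_an.CD.Dfct
import Pool.Agent.Lib.MP_610fe3_an.CD.Ey
import Pool.Agent.Lib.MP_610fe3_an.CD.Main7P
import Pool.Agent.Lib.MP_610fe3_an.CD.RateAll

/-!
# The conformality defect of an attractor: the theorem
-/

namespace Pool.Agent.Lib.MP610fe3.CD

universe u v

theorem specCD : SpecCD.{u, v} P :=
  specCD_of (specMain7P_of specCore7P) specMfd2 (specRateAll_of PR.specHol AC.kal)
    (specDfct PR.specHol AC.kal)

end Pool.Agent.Lib.MP610fe3.CD
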