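import Pool.Agent.Lib.MP_610fe3_an.AP.Mfd

/-!
# Uniform rates from the rates over the attractor and the repeller, on the manifold

`AP.Rate` over `A`, `R` or `A ∪ R` (uniform, or at the periodic points of a `C^2` diffeomorphism)
gives `AP.UniRate` over the same set, and over `M` in the case of `A ∪ R`.
-/

open Set Filter Function Bundle
open scoped Manifold ContDiff Topology

namespace Pool.Agent.Lib.MP610fe3.CD

open Gen Cf.Mfd PR PR.PER H6 AP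

universe u v

section Dictionary

variable {V : Type*} [NormedAddCommGroup V] [NormedSpace ℝ V] {N : ℕ}
  {M : Type v} [MetricSpace M] [ChartedSpace V M]
  [RiemannianBundle (fun x : M => TangentSpace 𝓘(ℝ, V) x)]

/-- From the growth in the ambient space to the rate on the tangent bundle. -/
theorem rate_back {E : Emb M (EuclideanSpace ℝ (Fin N))} {h : M → M}
    {D Q : M → EuclideanSpace ℝ (Fin N) →L[ℝ] EuclideanSpace ℝ (Fin N)}
    {F : ∀ x : M, Submodule ℝ (TangentSpace 𝓘(ℝ, V) x)} {c₀ C₁ K : ℝ}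
    (hc₀ : 0 < c₀) (hC₁ : 0 < C₁)
    (hn : ∀ x (v : TangentSpace 𝓘(ℝ, V) x), c₀ * ‖v‖ ≤ ‖dE V E.e x v‖ ∧
      ‖dE V E.e x v‖ ≤ C₁ * ‖v‖)
    (hit : ∀ (k : ℕ) x (v : TangentSpace 𝓘(ℝ, V) x), iterD D h k x (dE V E.e x v) =
      dE V E.e (h^[k] x) (mfderiv 𝓘(ℝ, V) 𝓘(ℝ, V) (h^[k]) x v))
    (hm2 : ∀ x, ∀ v ∈ F x, Q x (dE V E.e x v) = dE V E.e x v) (hK : ∀ x, ‖Q x‖ ≤ K)
    (hQQ : ∀ x, Q x ∘L Q x = Q x) (hDQ : ∀ x, D x ∘L Q x = Q (h x) ∘L D x)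
    {X : Set M} {c : ℝ} (hR : SRate h (cp D Q) c X) : UniRate h F c X := by
  intro ε hε
  obtain ⟨C, hC⟩ := hR ε hε
  refine ⟨|C * K| * C₁ * (1 / c₀), fun n x hx v hv => ?_⟩
  have h1 := cp_apply_le hQQ hDQ hK (hC n x hx) (dE V E.e x v)
  rw [hm2 x v hv, hit, ← Real.exp_nat_mul, mul_comm (n : ℝ)] at h1
  have h2 : ‖mfderiv 𝓘(ℝ, V) 𝓘(ℝ, V) (h^[n]) x v‖ ≤
      1 / c₀ * ‖dE V E.e (h^[n] x) (mfderiv 𝓘(ℝ, V) 𝓘(ℝ, V) (h^[n]) x v)‖ := by
    rw [one_div, inv_mul_eq_div, le_div_iff₀ hc₀, mul_comm]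
    exact (hn _ _).1
  calc _ ≤ _ := h2
    _ ≤ 1 / c₀ * (C * K * Real.exp ((c + ε) * n) * ‖dE V E.e x v‖) := by gcongr
    _ ≤ 1 / c₀ * (|C * K| * Real.exp ((c + ε) * n) * (C₁ * ‖v‖)) := by
        have i1 := le_abs_self (C * K)
        have i2 := (hn x v).2
        gcongr
    _ = _ := by ring

end Dictionary

section Statement

variable {V : Type*} [NormedAddCommGroup V] [NormedSpace ℝ V]
  {M : Type*} [TopologicalSpace M] [ChartedSpace V M]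
  [RiemannianBundle (fun x : M => TangentSpace 𝓘(ℝ, V) x)]

/-- Rates over `X` are uniform over `Y`. -/
def Up (f : M ≃ₘ^1⟮𝓘(ℝ, V), 𝓘(ℝ, V)⟯ M) (Es Eu : ∀ x : M, Submodule ℝ (TangentSpace 𝓘(ℝ, V) x))
    (X Y : Set M) : Prop :=
  ∀ c : ℝ, (Rate f f Es c X → UniRate f Es c Y) ∧ (Rate f f Eu c X → UniRate f Eu c Y) ∧
    (Rate f f.symm Es c X → UniRate f.symm Es c Y) ∧
    (Rate f f.symm Eu c X → UniRate f.symm Eu c Y)

end Statement

section Metric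

variable {V : Type u} [NormedAddCommGroup V] [NormedSpace ℝ V] [FiniteDimensional ℝ V] {N : ℕ}
  {M : Type v} [MetricSpace M] [CompactSpace M]
  [ChartedSpace V M] [IsManifold 𝓘(ℝ, V) ∞ M]
  [RiemannianBundle (fun x : M => TangentSpace 𝓘(ℝ, V) x)]
  [IsContinuousRiemannianBundle V (fun x : M => TangentSpace 𝓘(ℝ, V) x)]

theorem up_metric (hHol : SpecHol.{v, 0}) (hKal : SpecKal.{v, 0})
    (e : M → EuclideanSpace ℝ (Fin N)) (hiso : Isometry e)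
    (he : ContMDiff 𝓘(ℝ, V) (𝓡 N) ∞ e)
    (hinj : ∀ x, Injective (mfderiv 𝓘(ℝ, V) (𝓡 N) e x))
    (f : M ≃ₘ^1⟮𝓘(ℝ, V), 𝓘(ℝ, V)⟯ M)
    (Es Eu : ∀ x : M, Submodule ℝ (TangentSpace 𝓘(ℝ, V) x))
    (hA : Gen.IsAnosovSplitting f Es Eu)
    {U : Set M} (hU : IsOpen U) (hUt : f '' closure U ⊆ U) :
    Up f Es Eu (Att f U) (Att f U) ∧ Up f Es Eu (Rep f U) (Rep f U) ∧
      Up f Es Eu (Att f U ∪ Rep f U) univ := by
  obtain ⟨E, hE, hEP, hr⟩ := Gen.exists_emb e hiso he hinj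
  subst hE
  obtain ⟨S, hS, hSs, hSu⟩ := Gen.exists_split E he hinj hr f Es Eu hA
  have hinj' : ∀ x, Injective (dF V E.e x) := hinj
  obtain ⟨K, hK1, hK⟩ := S.exists_bdd
  obtain ⟨c₀, C₁, hc₀, hC₁, hn⟩ := exists_norm_bounds E.e he hinj
  have hn' : ∀ x (v : TangentSpace 𝓘(ℝ, V) x), c₀ * ‖v‖ ≤ ‖dE V E.e x v‖ ∧
      ‖dE V E.e x v‖ ≤ C₁ * ‖v‖ := by
    intro x v
    have h1 := hn x v
    rw [norm_tangentSpace_vectorSpace] at h1
    exact h1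
  have he1 : ContMDiff 𝓘(ℝ, V) (𝓡 N) 1 E.e := he.of_le (by exact_mod_cast le_top)
  have hit : ∀ {h : M → M}, ContMDiff 𝓘(ℝ, V) 𝓘(ℝ, V) 1 h →
      ∀ {D : M → EuclideanSpace ℝ (Fin N) →L[ℝ] EuclideanSpace ℝ (Fin N)}, HasD E h D →
      ∀ (k : ℕ) x (v : TangentSpace 𝓘(ℝ, V) x), iterD D h k x (dE V E.e x v) =
        dE V E.e (h^[k] x) (mfderiv 𝓘(ℝ, V) 𝓘(ℝ, V) (h^[k]) x v) := by
    intro h hh D hD k x v
    refine iterD_dE he hh (fun x u => ?_) k x v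
    have h3 := mfderiv_comp (I := 𝓘(ℝ, V)) (I' := 𝓘(ℝ, V)) (I'' := 𝓡 N) (f := h) x
      (he1.mdifferentiable (by norm_num) (h x)) (hh.mdifferentiable (by norm_num) x)
    rw [HasD_eq_KF E he hinj hEP hh hD x]
    refine (KF_apply hinj' x u).trans ?_
    unfold dF
    rw [h3]
    rfl
  have hm1 : ∀ {Q : M → EuclideanSpace ℝ (Fin N) →L[ℝ] EuclideanSpace ℝ (Fin N)}
      {F : ∀ x : M, Submodule ℝ (TangentSpace 𝓘(ℝ, V) x)},
      (∀ x, (Q x).range = (F x).map (mfderiv 𝓘(ℝ, V) (𝓡 N) E.e x).toLinearMap) →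
      ∀ x w, ∃ v ∈ F x, dE V E.e x v = Q x w := by
    intro Q F hF x w
    have h1 : Q x w ∈ (Q x).range := ⟨w, rfl⟩
    rw [hF x] at h1
    obtain ⟨v', hv', hvv'⟩ := h1
    exact ⟨v', hv', hvv'⟩
  have hm2 : ∀ {Q : M → EuclideanSpace ℝ (Fin N) →L[ℝ] EuclideanSpace ℝ (Fin N)}
      {F : ∀ x : M, Submodule ℝ (TangentSpace 𝓘(ℝ, V) x)}, (∀ x, Q x ∘L Q x = Q x) →
      (∀ x, (Q x).range = (F x).map (mfderiv 𝓘(ℝ, V) (𝓡 N) E.e x).toLinearMap) →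
      ∀ x, ∀ v ∈ F x, Q x (dE V E.e x v) = dE V E.e x v := by
    intro Q F hQ hF x v hv
    have h1 : dE V E.e x v ∈ (F x).map (mfderiv 𝓘(ℝ, V) (𝓡 N) E.e x).toLinearMap := ⟨v, hv, rfl⟩
    rw [← hF x] at h1
    obtain ⟨w, hw⟩ := h1
    have h2 := congrArg (fun L => L w) (hQ x)
    simp only [ContinuousLinearMap.comp_apply] at h2
    have hw' : Q x w = dE V E.e x v := hw
    rw [← hw', h2]
  have hT : N3.Trap f.toHomeomorph U := ⟨hU, fun x hx => hUt ⟨x, hx, rfl⟩⟩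
  have hT' := trap_symm hT
  have eA : Att f U = N3.Att f.toHomeomorph U := by
    ext x
    rw [mem_att]
    rfl
  have eR : Rep f U = N3.Rep f.toHomeomorph U := by
    ext x
    rw [mem_rep]
    rfl
  have hd := fun (h : ContMDiff 𝓘(ℝ, V) 𝓘(ℝ, V) 2 f ∧ ContMDiff 𝓘(ℝ, V) 𝓘(ℝ, V) 2 f.symm) =>
    holder_data hHol E he hinj hEP f h.1 h.2 S hS
  -- the four kinds of rates
  have rfs : ∀ {X : Set M} {c : ℝ}, Good f.toHomeomorph X → Rate f f Es c X →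
      SRate (⇑f.toHomeomorph) (cp S.D S.S) c X := fun {X c} hX h =>
    rate_of (P := ContMDiff 𝓘(ℝ, V) 𝓘(ℝ, V) 2 f ∧ ContMDiff 𝓘(ℝ, V) 𝓘(ℝ, V) 2 f.symm)
      hKal hS hc₀ hC₁ hn' (hit f.contMDiff S.hD) (hm1 hSs) (fun x => (hK x).1) S.SS S.DS
      hX (fun hP => by
        obtain ⟨B, β, h1, h2, h3, h4, h5, h6⟩ := hd hP
        exact ⟨B, β, h1, h2, h3, h5⟩) (h.imp id fun h => ⟨⟨h.1, h.2.1⟩, h.2.2⟩)
  have rfu : ∀ {X : Set M} {c : ℝ}, Good f.toHomeomorph X → Rate f f Eu c X →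
      SRate (⇑f.toHomeomorph) (cp S.D S.U) c X := fun {X c} hX h =>
    rate_of (P := ContMDiff 𝓘(ℝ, V) 𝓘(ℝ, V) 2 f ∧ ContMDiff 𝓘(ℝ, V) 𝓘(ℝ, V) 2 f.symm)
      hKal hS hc₀ hC₁ hn' (hit f.contMDiff S.hD) (hm1 hSu) (fun x => (hK x).2) S.UU S.DU
      hX (fun hP => by
        obtain ⟨B, β, h1, h2, h3, h4, h5, h6⟩ := hd hP
        exact ⟨B, β, h1, h2, h3, h6⟩) (h.imp id fun h => ⟨⟨h.1, h.2.1⟩, h.2.2⟩)
  have rbs : ∀ {X : Set M} {c : ℝ}, Good f.toHomeomorph.symm X → Rate f f.symm Es c X →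
      SRate (⇑f.toHomeomorph.symm) (cp S.Di S.S) c X := fun {X c} hX h =>
    rate_of (P := ContMDiff 𝓘(ℝ, V) 𝓘(ℝ, V) 2 f ∧ ContMDiff 𝓘(ℝ, V) 𝓘(ℝ, V) 2 f.symm)
      hKal (S := S.swap) hS.swap hc₀ hC₁ hn' (hit f.symm.contMDiff S.hDi) (hm1 hSs)
      (fun x => (hK x).1) S.SS S.swap.DU
      hX (fun hP => by
        obtain ⟨B, β, h1, h2, h3, h4, h5, h6⟩ := hd hP
        exact ⟨B, β, h1, h2, h4, h5⟩) (h.imp id fun h => ⟨⟨h.1, h.2.1⟩, h.2.2⟩)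
  have rbu : ∀ {X : Set M} {c : ℝ}, Good f.toHomeomorph.symm X → Rate f f.symm Eu c X →
      SRate (⇑f.toHomeomorph.symm) (cp S.Di S.U) c X := fun {X c} hX h =>
    rate_of (P := ContMDiff 𝓘(ℝ, V) 𝓘(ℝ, V) 2 f ∧ ContMDiff 𝓘(ℝ, V) 𝓘(ℝ, V) 2 f.symm)
      hKal (S := S.swap) hS.swap hc₀ hC₁ hn' (hit f.symm.contMDiff S.hDi) (hm1 hSu)
      (fun x => (hK x).2) S.UU S.swap.DS
      hX (fun hP => by
        obtain ⟨B, β, h1, h2, h3, h4, h5, h6⟩ := hd hP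
        exact ⟨B, β, h1, h2, h4, h6⟩) (h.imp id fun h => ⟨⟨h.1, h.2.1⟩, h.2.2⟩)
  -- back
  have bfs : ∀ {X : Set M} {c : ℝ}, SRate (⇑f.toHomeomorph) (cp S.D S.S) c X →
      UniRate f Es c X := fun {X c} h =>
    rate_back (h := f) hc₀ hC₁ hn' (hit f.contMDiff S.hD) (hm2 S.SS hSs) (fun x => (hK x).1)
      S.SS S.DS h
  have bfu : ∀ {X : Set M} {c : ℝ}, SRate (⇑f.toHomeomorph) (cp S.D S.U) c X →
      UniRate f Eu c X := fun {X c} h =>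
    rate_back (h := f) hc₀ hC₁ hn' (hit f.contMDiff S.hD) (hm2 S.UU hSu) (fun x => (hK x).2)
      S.UU S.DU h
  have bbs : ∀ {X : Set M} {c : ℝ}, SRate (⇑f.toHomeomorph.symm) (cp S.Di S.S) c X →
      UniRate f.symm Es c X := fun {X c} h =>
    rate_back (h := f.symm) hc₀ hC₁ hn' (hit f.symm.contMDiff S.hDi) (hm2 S.SS hSs)
      (fun x => (hK x).1) S.SS S.swap.DU h
  have bbu : ∀ {X : Set M} {c : ℝ}, SRate (⇑f.toHomeomorph.symm) (cp S.Di S.U) c X →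
      UniRate f.symm Eu c X := fun {X c} h =>
    rate_back (h := f.symm) hc₀ hC₁ hn' (hit f.symm.contMDiff S.hDi) (hm2 S.UU hSu)
      (fun x => (hK x).2) S.UU S.swap.DS h
  have cD : Continuous S.D := S.hD.cont
  have cDi : Continuous S.Di := S.hDi.cont
  have cS : Continuous S.S := S.continuous_S hS
  have cU : Continuous S.U := S.continuous_U hS
  have c1 : Continuous (cp S.D S.S) := cD.clm_comp cS
  have c2 : Continuous (cp S.D S.U) := cD.clm_comp cU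
  have c3 : Continuous (cp S.Di S.S) := cDi.clm_comp cS
  have c4 : Continuous (cp S.Di S.U) := cDi.clm_comp cU
  rw [eA, eR]
  refine ⟨fun c => ⟨fun h => bfs (rfs (good_att hT) h), fun h => bfu (rfu (good_att hT) h),
    fun h => bbs (rbs (good_att' hT) h), fun h => bbu (rbu (good_att' hT) h)⟩,
    fun c => ⟨fun h => bfs (rfs (good_rep hT) h), fun h => bfu (rfu (good_rep hT) h),
    fun h => bbs (rbs (good_rep' hT) h), fun h => bbu (rbu (good_rep' hT) h)⟩,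
    fun c => ⟨fun h => bfs ((rfs (good_union hT) h).all hT c1),
      fun h => bfu ((rfu (good_union hT) h).all hT c2), fun h => bbs ?_, fun h => bbu ?_⟩⟩
  · have h1 := rbs (good_union' hT) h
    rw [union_comm, ← att_symm hT, ← rep_symm hT] at h1
    exact h1.all hT' c3
  · have h1 := rbu (good_union' hT) h
    rw [union_comm, ← att_symm hT, ← rep_symm hT] at h1
    exact h1.all hT' c4

end Metric

/-- **Rates over the attractor, the repeller and their union.** -/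
theorem up_of (hHol : SpecHol.{v, 0}) (hKal : SpecKal.{v, 0}) {V : Type u}
    [NormedAddCommGroup V] [NormedSpace ℝ V] [FiniteDimensional ℝ V]
    {M : Type v} [TopologicalSpace M] [CompactSpace M] [T2Space M]
    [ChartedSpace V M] [IsManifold 𝓘(ℝ, V) ∞ M]
    [RiemannianBundle (fun x : M => TangentSpace 𝓘(ℝ, V) x)]
    [IsContinuousRiemannianBundle V (fun x : M => TangentSpace 𝓘(ℝ, V) x)]
    (f : M ≃ₘ^1⟮𝓘(ℝ, V), 𝓘(ℝ, V)⟯ M) (Es Eu : ∀ x : M, Submodule ℝ (TangentSpace 𝓘(ℝ, V) x))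
    (hA : Gen.IsAnosovSplitting f Es Eu) {U : Set M} (hU : AC.ProperAttracting f U) :
    Up f Es Eu (Att f U) (Att f U) ∧ Up f Es Eu (Rep f U) (Rep f U) ∧
      Up f Es Eu (Att f U ∪ Rep f U) univ := by
  obtain ⟨N, e, he, hemb, hinj⟩ := exists_embedding_euclidean_of_compact (I := 𝓘(ℝ, V)) (M := M)
  let _ : MetricSpace M := hemb.isEmbedding.comapMetricSpace e
  have hiso : Isometry e := hemb.isEmbedding.to_isometry
  exact up_metric hHol hKal e hiso he hinj f Es Eu hA hU.1 hU.2.2.2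

end Pool.Agent.Lib.MP610fe3.CD
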